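import Pool.Agent.helper88.RQ2.Spec

set_option autoImplicit false

open Set Matroid RadonMin

namespace RadonQ2

theorem ET2_single {V : Type} [AddCommGroup V] [Module ℝ V] [DecidableEq V] (K : Finset V → Prop)
    (X : Finset V) (hne : X.Nonempty) (hK : K X) : DecR K X := by
  refine ⟨{X}, ?_, ?_, ?_, ?_⟩
  · intro B hB
    rw [Finset.mem_singleton] at hB
    subst hB
    exact ⟨hne, hK⟩
  · rw [Finset.coe_singleton]
    exact Set.pairwiseDisjoint_singleton X id
  · intro x
    constructor
    · intro hx
      exact ⟨X, Finset.mem_singleton_self X, hx⟩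
    · rintro ⟨B, hB, hx⟩
      rw [Finset.mem_singleton] at hB
      subst hB
      exact hx
  · rw [Finset.sum_singleton]

theorem ET2_bound {V : Type} [AddCommGroup V] [Module ℝ V] [DecidableEq V] (m : ℕ) (X : Finset V) :
    TT m X.card (ra X) ≤ ci X := by
  have h := T_bound (affMat_simp X) (affMat_good X) m
  rw [affMat_E, ncard_coe_finset] at h
  exact h

theorem ET2_add (m : ℕ) (a b c d : ℤ) : TT m (a + b) (c + d) = TT m a c + TT m b d := by
  unfold TT
  ring

theorem ET2_aux (hMS2 : MS2_stmt) (hEB : EB_stmt) (hESPL : ESPL_stmt) (hECI : ECI_stmt)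
    (hEUN : EUN_stmt) (hGCI : GCI_stmt) (V : Type) [AddCommGroup V] [Module ℝ V] [DecidableEq V] (N : ℕ) :
    ∀ X : Finset V, X.card = N → (ci X : ℤ) = TT 2 X.card (ra X) → DecR Kind2 X := by
  induction N using Nat.strong_induction_on with
  | _ N ih =>
    intro X hN hX
    obtain ⟨-, -, -, -, h0, -, -⟩ := hEB V
    by_cases hemp : X = ∅
    · subst hemp
      refine ⟨∅, ?_, ?_, ?_, ?_⟩
      · intro B hB
        exact absurd hB (Finset.notMem_empty B)
      · rw [Finset.coe_empty]
        exact Set.pairwiseDisjoint_empty
      · intro x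
        constructor
        · intro hx
          exact absurd hx (Finset.notMem_empty x)
        · rintro ⟨B, hB, -⟩
          exact absurd hB (Finset.notMem_empty B)
      · rw [Finset.sum_empty, h0]
    · have hne : X.Nonempty := Finset.nonempty_iff_ne_empty.mpr hemp
      by_cases hc : Conn (affMat X)
      · have h1 := hMS2 V (affMat X) (affMat_simp X) hc (by
          rw [affMat_E, ncard_coe_finset]
          exact hX)
        apply ET2_single _ X hne
        rw [affMat_E, ncard_coe_finset] at h1
        rcases h1 with h1 | h1
        · left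
          have h2 := Finset.card_pos.mpr hne
          omega
        · right
          exact (hGCI V X X (Finset.Subset.refl X)).mp h1
      · obtain ⟨A, hA, hAne, hBne, hrk⟩ := hESPL V X hc
        have hci := hECI V X A hA hrk
        have hb1 := ET2_bound 2 A
        have hb2 := ET2_bound 2 (X \ A)
        have hcard : (X \ A).card + A.card = X.card := Finset.card_sdiff_add_card_eq_card hA
        have hsum : TT 2 X.card (ra X) = TT 2 A.card (ra A) + TT 2 (X \ A).card (ra (X \ A)) := by
          rw [← ET2_add, ← hrk, ← hcard]
          congr 1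
          push_cast
          ring
        have hci' : (ci X : ℤ) = ci A + ci (X \ A) := by
          rw [hci]
          push_cast
          ring
        have he1 : (ci A : ℤ) = TT 2 A.card (ra A) := by linarith
        have he2 : (ci (X \ A) : ℤ) = TT 2 (X \ A).card (ra (X \ A)) := by linarith
        have hp1 := Finset.card_pos.mpr hAne
        have hp2 := Finset.card_pos.mpr hBne
        exact hEUN V Kind2 X A hA hrk (ih A.card (by omega) A rfl he1)
          (ih (X \ A).card (by omega) (X \ A) rfl he2)

theorem ET2_proof (hMS2 : MS2_stmt) (hEB : EB_stmt) (hESPL : ESPL_stmt) (hECI : ECI_stmt)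
    (hEUN : EUN_stmt) (hGCI : GCI_stmt) : ET2_stmt := by
  intro V _ _ _ X hX
  exact ET2_aux hMS2 hEB hESPL hECI hEUN hGCI V X.card X rfl hX

end RadonQ2
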