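import Pool.Agent.helper88.RQ2.Spec

set_option autoImplicit false

open Set Matroid RadonMin

namespace RadonQ2

theorem FEX_k2 {V : Type} [AddCommGroup V] [Module ℝ V] :
    (fun B : Finset V => B.card = 1 ∨ IsCirc B) = Kind2 := rfl

theorem FEX_k3 {V : Type} [AddCommGroup V] [Module ℝ V] :
    (fun B : Finset V => IsLine 3 B ∨ IsLine 4 B ∨ IsCross B) = KindT 3 := by
  funext B
  apply propext
  unfold KindT IsLine
  constructor
  · rintro (⟨h1, h2⟩ | ⟨h1, h2⟩ | h)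
    · exact Or.inl ⟨Or.inl h1, h2⟩
    · exact Or.inl ⟨Or.inr h1, h2⟩
    · exact Or.inr ⟨rfl, h⟩
  · rintro (⟨h1 | h1, h2⟩ | ⟨-, h⟩)
    · exact Or.inl ⟨h1, h2⟩
    · exact Or.inr (Or.inl ⟨h1, h2⟩)
    · exact Or.inr (Or.inr h)

theorem FEX_k4 {V : Type} [AddCommGroup V] [Module ℝ V] (q : ℕ) (hq : 4 ≤ q) :
    (fun B : Finset V => IsLine q B ∨ IsLine (q + 1) B) = KindT q := by
  funext B
  apply propext
  unfold KindT IsLine
  constructor
  · rintro (⟨h1, h2⟩ | ⟨h1, h2⟩)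
    · exact Or.inl ⟨Or.inl h1, h2⟩
    · exact Or.inl ⟨Or.inr h1, h2⟩
  · rintro (⟨h1 | h1, h2⟩ | ⟨h, -⟩)
    · exact Or.inl ⟨h1, h2⟩
    · exact Or.inr ⟨h1, h2⟩
    · omega

theorem FEX_T (hRKD : RKD_stmt) (hFSP : FSP_stmt) (V : Type) [AddCommGroup V] [Module ℝ V] [DecidableEq V]
    (d m : ℕ) (r : ℤ) (K : Finset V → Prop) (X : Finset V) (hd : 1 ≤ d) (hra : ra X ≤ d + 1)
    (hs : d + 2 ≤ X.card) (hr : r = ((d + 1 : ℕ) : ℤ)) (hval : (radonMin d X.card : ℤ) = TT m X.card r)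
    (hE : (ci X : ℤ) = TT m X.card (ra X) → DecR K X)
    (hF : DecR K X → (ci X : ℤ) = TT m X.card (ra X)) :
    ci X = radonMin d X.card ↔ Splits K d X := by
  have hne : X.Nonempty := Finset.card_pos.mp (by omega)
  rw [hFSP V K d X hne]
  constructor
  · intro h
    have h1 := hRKD V d X hd hra hs h
    refine ⟨h1, hE ?_⟩
    rw [h, hval, hr, h1]
  · rintro ⟨h1, h2⟩
    have h3 := hF h2
    have h4 : (ci X : ℤ) = (radonMin d X.card : ℤ) := by rw [h3, hval, hr, h1]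
    exact_mod_cast h4

theorem FEX_proof (hRKD : RKD_stmt) (hAR5 : AR5_stmt) (hAR6 : AR6_stmt) (hET2 : ET2_stmt)
    (hKE2 : KE2_stmt) (hETM : ETM_stmt) (hKET : KET_stmt) (hEUM : EUM_stmt) (hFT : FT_stmt)
    (hFU : FU_stmt) (hFSP : FSP_stmt) (hFST : FST_stmt) : FEX_stmt := by
  intro V _ _ _ d X hd hra hs
  unfold Extremal
  by_cases hodd : d % 2 = 1
  · rw [if_pos hodd]
    obtain ⟨k, hk, hdk⟩ : ∃ k : ℕ, 1 ≤ k ∧ d = 2 * k - 1 := ⟨(d + 1) / 2, by omega, by omega⟩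
    have hkk : (d + 1) / 2 = k := by omega
    rw [hkk]
    have hr : (2 * (k : ℤ)) = ((d + 1 : ℕ) : ℤ) := by
      have h1 : d + 1 = 2 * k := by omega
      rw [h1]
      push_cast
      ring
    obtain ⟨hA1, hA2, hA3⟩ := hAR5 k X.card hk (by omega)
    rw [← hdk] at hA1 hA2 hA3
    by_cases h1 : X.card ≤ 3 * k
    · rw [if_pos h1, FEX_k2]
      exact FEX_T hRKD hFSP V d 2 _ Kind2 X hd hra hs hr (hA2 h1) (hET2 V X)
        (hFT V 2 Kind2 X (fun B hB => hKE2 V B hB))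
    · rw [if_neg h1]
      by_cases h2 : X.card ≤ 4 * k
      · rw [if_pos h2, FEX_k3]
        exact FEX_T hRKD hFSP V d 3 _ (KindT 3) X hd hra hs hr (hA3 (by omega) h2)
          (hETM V 3 X le_rfl) (hFT V 3 (KindT 3) X (fun B hB => hKET V 3 B le_rfl hB))
      · rw [if_neg h2]
        have hq : 4 ≤ X.card / k := (Nat.le_div_iff_mul_le (by omega)).mpr (by omega)
        rw [FEX_k4 (X.card / k) hq]
        exact FEX_T hRKD hFSP V d (X.card / k) _ (KindT (X.card / k)) X hd hra hs hr hA1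
          (hETM V (X.card / k) X (by omega))
          (hFT V (X.card / k) (KindT (X.card / k)) X (fun B hB => hKET V (X.card / k) B (by omega) hB))
  · rw [if_neg hodd]
    obtain ⟨k, hk, hdk⟩ : ∃ k : ℕ, 1 ≤ k ∧ d = 2 * k := ⟨d / 2, by omega, by omega⟩
    have hkk : d / 2 = k := by omega
    rw [hkk]
    have hr : (2 * (k : ℤ) + 1) = ((d + 1 : ℕ) : ℤ) := by
      rw [hdk]
      push_cast
      ring
    obtain ⟨hA1, hA2, hA3⟩ := hAR6 k X.card hk (by omega)
    rw [← hdk] at hA1 hA2 hA3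
    by_cases h1 : X.card ≤ 3 * k + 1
    · rw [if_pos h1, FEX_k2]
      exact FEX_T hRKD hFSP V d 2 _ Kind2 X hd hra hs hr (hA1 h1) (hET2 V X)
        (hFT V 2 Kind2 X (fun B hB => hKE2 V B hB))
    · rw [if_neg h1]
      by_cases h2 : X.card ≤ 4 * k + 1
      · rw [if_pos h2, FEX_k3]
        exact FEX_T hRKD hFSP V d 3 _ (KindT 3) X hd hra hs hr (hA2 (by omega) h2)
          (hETM V 3 X le_rfl) (hFT V 3 (KindT 3) X (fun B hB => hKET V 3 B le_rfl hB))
      · rw [if_neg h2]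
        have hq : 4 ≤ (X.card - 2) / k := (Nat.le_div_iff_mul_le (by omega)).mpr (by omega)
        rw [FEX_k4 ((X.card - 2) / k) hq]
        have hne : X.Nonempty := Finset.card_pos.mp (by omega)
        have hval := hA3 (by omega)
        rw [hFST V (IsTop ((X.card - 2) / k)) (KindT ((X.card - 2) / k)) d X hne]
        constructor
        · intro h
          have h3 := hRKD V d X hd hra hs h
          refine ⟨h3, hEUM V ((X.card - 2) / k) k X hq hk (by omega) ?_⟩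
          rw [h, hval]
        · rintro ⟨h3, h4⟩
          have h5 := hFU V ((X.card - 2) / k) k X hq (by omega) h4
          have h6 : (ci X : ℤ) = (radonMin d X.card : ℤ) := by rw [h5, hval]
          exact_mod_cast h6

end RadonQ2
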