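import Pool.Agent.helper88.RQ2.Spec

set_option autoImplicit false

open Set Matroid RadonMin

namespace RadonQ2

theorem FU_proof (hECI : ECI_stmt) (hKEU : KEU_stmt) (hKET : KET_stmt) (hFT : FT_stmt) : FU_stmt := by
  intro V _ _ _ q k X hq hr hX
  obtain ⟨B₀, hsub, hne, hT, hD, hrk⟩ := hX
  obtain ⟨hr0, hc0⟩ := hKEU V q B₀ hq hT
  have hci := hECI V X B₀ hsub hrk.symm
  have hrest := hFT V q (KindT q) (X \ B₀) (fun B hB => hKET V q B (by omega) hB) hD
  have hcard : (X \ B₀).card + B₀.card = X.card := Finset.card_sdiff_add_card_eq_card hsub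
  have h1 : (X.card : ℤ) = (X \ B₀).card + B₀.card := by rw [← hcard]; push_cast; ring
  have h2 : (ra (X \ B₀) : ℤ) = 2 * k - 2 := by
    have h3 : (2 : ℕ) * k + 1 = 3 + ra (X \ B₀) := by rw [← hr, hrk, hr0]
    have h4 : ((2 * k + 1 : ℕ) : ℤ) = ((3 + ra (X \ B₀) : ℕ) : ℤ) := by rw [h3]
    push_cast at h4
    linarith
  rw [hci]
  push_cast
  rw [hc0, hrest, h2, h1]
  unfold UU TT
  ring

end RadonQ2
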